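import Mathlib

/-!
Library for [DL] (and [DU]): coverings of null sets, a mass distribution principle, weights.
-/

set_option autoImplicit false

namespace Pool.Agent.Helper46K9.BC

open Finset MeasureTheory TopologicalSpace Filter Topology
open scoped ENNReal

/-- coverings of a set of measure zero -/
theorem cov (S : Set ℝ) (s : ℝ) (hs : 0 < s) (h : μH[s] S = 0) (ε : ℝ) (hε : 0 < ε) :
    ∃ (t : ℕ → Set ℝ) (r : ℕ → ℝ), S ⊆ ⋃ n, t n ∧
      (∀ n, 0 < r n ∧ r n ≤ ε ∧ Metric.ediam (t n) ≤ ENNReal.ofReal (r n)) ∧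
      ∑' n, ENNReal.ofReal (r n ^ s) ≤ ENNReal.ofReal ε := by
  rw [Measure.hausdorffMeasure_apply] at h
  have h1 := le_antisymm_iff.1 h |>.1
  have h2 : (⨅ (t : ℕ → Set ℝ) (_ : S ⊆ ⋃ n, t n) (_ : ∀ n, Metric.ediam (t n) ≤ ENNReal.ofReal ε),
      ∑' n, ⨆ _ : (t n).Nonempty, Metric.ediam (t n) ^ s) ≤ 0 := by
    refine le_trans ?_ h1
    exact le_iSup₂_of_le (ENNReal.ofReal ε) (ENNReal.ofReal_pos.2 hε) le_rfl
  have h3 : (⨅ (t : ℕ → Set ℝ) (_ : S ⊆ ⋃ n, t n) (_ : ∀ n, Metric.ediam (t n) ≤ ENNReal.ofReal ε),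
      ∑' n, ⨆ _ : (t n).Nonempty, Metric.ediam (t n) ^ s) < ENNReal.ofReal (ε / 2) :=
    lt_of_le_of_lt h2 (ENNReal.ofReal_pos.2 (by positivity))
  simp only [iInf_lt_iff] at h3
  obtain ⟨t, ht1, ht2, ht3⟩ := h3
  set η : ℕ → ℝ := fun n => min ε ((ε / 2 * (1 / 2) ^ (n + 1)) ^ (1 / s)) with hη
  have hη0 : ∀ n, 0 < η n := fun n => lt_min hε (by positivity)
  have hηs : ∀ n, η n ^ s ≤ ε / 2 * (1 / 2) ^ (n + 1) := by
    intro n
    have h4 : η n ^ s ≤ ((ε / 2 * (1 / 2) ^ (n + 1)) ^ (1 / s)) ^ s :=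
      Real.rpow_le_rpow (hη0 n).le (min_le_right _ _) hs.le
    refine h4.trans (le_of_eq ?_)
    rw [← Real.rpow_mul (by positivity), one_div_mul_cancel hs.ne', Real.rpow_one]
  have htop : ∀ n, Metric.ediam (t n) ≠ ∞ := fun n => ne_top_of_le_ne_top ENNReal.ofReal_ne_top (ht2 n)
  refine ⟨t, fun n => max (Metric.ediam (t n)).toReal (η n), ht1, fun n => ⟨?_, ?_, ?_⟩, ?_⟩
  · exact lt_max_of_lt_right (hη0 n)
  · exact max_le (ENNReal.toReal_le_of_le_ofReal hε.le (ht2 n)) (min_le_left _ _)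
  · calc Metric.ediam (t n) = ENNReal.ofReal (Metric.ediam (t n)).toReal := (ENNReal.ofReal_toReal (htop n)).symm
      _ ≤ _ := ENNReal.ofReal_le_ofReal (le_max_left _ _)
  · have h4 : ∀ n, ENNReal.ofReal (max (Metric.ediam (t n)).toReal (η n) ^ s) ≤
        (⨆ _ : (t n).Nonempty, Metric.ediam (t n) ^ s) + ENNReal.ofReal (ε / 2 * (1 / 2) ^ (n + 1)) := by
      intro n
      rcases le_total (Metric.ediam (t n)).toReal (η n) with hle | hle
      · rw [max_eq_right hle]
        exact (ENNReal.ofReal_le_ofReal (hηs n)).trans le_add_self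
      · rw [max_eq_left hle]
        rcases (t n).eq_empty_or_nonempty with h0 | h0
        · exfalso
          rw [h0, Metric.ediam_empty, ENNReal.toReal_zero] at hle
          exact absurd (hη0 n) (not_lt.2 hle)
        · have h5 : ENNReal.ofReal ((Metric.ediam (t n)).toReal ^ s) = Metric.ediam (t n) ^ s := by
            rw [← ENNReal.ofReal_rpow_of_nonneg ENNReal.toReal_nonneg hs.le, ENNReal.ofReal_toReal (htop n)]
          rw [h5]
          exact (le_iSup (fun _ : (t n).Nonempty => Metric.ediam (t n) ^ s) h0).trans le_self_add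
    refine (ENNReal.tsum_le_tsum h4).trans ?_
    rw [ENNReal.tsum_add]
    have h5 : ∑' n : ℕ, ENNReal.ofReal (ε / 2 * (1 / 2) ^ (n + 1)) = ENNReal.ofReal (ε / 2) := by
      rw [← ENNReal.ofReal_tsum_of_nonneg (fun n => by positivity)]
      · congr 1
        have e : ∀ n : ℕ, ε / 2 * (1 / 2 : ℝ) ^ (n + 1) = (ε / 4) * (1 / 2) ^ n := fun n => by ring
        simp only [e]
        rw [tsum_mul_left, tsum_geometric_two]
        ring
      · have e : ∀ n : ℕ, ε / 2 * (1 / 2 : ℝ) ^ (n + 1) = (ε / 4) * (1 / 2) ^ n := fun n => by ring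
        simp only [e]
        exact summable_geometric_two.mul_left _
    rw [h5]
    refine (add_le_add ht3.le le_rfl).trans (le_of_eq ?_)
    rw [← ENNReal.ofReal_add (by positivity) (by positivity)]
    congr 1
    ring


/-- mass distribution principle -/
theorem mdp (s δ z A : ℝ) (hs : 0 ≤ s) (hδ : 0 < δ) (hz : 0 < z) (hA : 0 < A) (V : Finset ℤ) (m : ℤ → ℝ)
    (hm : ∀ k ∈ V, 0 ≤ m k) (h1 : z ≤ ∑ k ∈ V, m k)
    (h2 : ∑ k ∈ V, ∑ l ∈ V, m k * m l * (δ * (|((k : ℝ) - l)| + 1)) ^ (-s) ≤ A)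
    (n : ℕ) (x L : Fin n → ℝ) (hL : ∀ i, δ ≤ L i)
    (hcov : ∀ k ∈ V, ∃ i, x i < δ * k ∧ δ * k < x i + L i) :
    z ^ 2 / (4 * A * 2 ^ s) ≤ ∑ i, (L i) ^ s := by
  classical
  set pot : ℤ → ℝ := fun k => ∑ l ∈ V, m l * (δ * (|((k : ℝ) - l)| + 1)) ^ (-s) with hpot
  have hw : ∀ k l : ℤ, 0 ≤ (δ * (|((k : ℝ) - l)| + 1)) ^ (-s) := fun k l => by positivity
  have hpot0 : ∀ k, 0 ≤ pot k := fun k => sum_nonneg fun l hl => mul_nonneg (hm l hl) (hw k l)
  set τ : ℝ := 2 * A / z with hτ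
  have hτ0 : 0 < τ := by positivity
  set bad := V.filter (fun k => τ < pot k) with hbad
  set good := V.filter (fun k => ¬ τ < pot k) with hgood
  have hsplit : ∑ k ∈ V, m k = ∑ k ∈ bad, m k + ∑ k ∈ good, m k :=
    (sum_filter_add_sum_filter_not _ _ _).symm
  have hbad1 : τ * ∑ k ∈ bad, m k ≤ A := by
    calc τ * ∑ k ∈ bad, m k = ∑ k ∈ bad, m k * τ := by rw [mul_comm, sum_mul]
      _ ≤ ∑ k ∈ bad, m k * pot k := sum_le_sum fun k hk =>
          mul_le_mul_of_nonneg_left (mem_filter.1 hk).2.le (hm k (mem_filter.1 hk).1)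
      _ ≤ ∑ k ∈ V, m k * pot k := sum_le_sum_of_subset_of_nonneg (filter_subset _ _)
          fun k hk _ => mul_nonneg (hm k hk) (hpot0 k)
      _ = ∑ k ∈ V, ∑ l ∈ V, m k * m l * (δ * (|((k : ℝ) - l)| + 1)) ^ (-s) := by
          refine sum_congr rfl fun k _ => ?_
          simp only [hpot]
          rw [mul_sum]
          exact sum_congr rfl fun l _ => by ring
      _ ≤ A := h2
  have hbad2 : ∑ k ∈ bad, m k ≤ z / 2 := by
    have e : A = τ * (z / 2) := by
      rw [hτ]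
      field_simp
    rw [e] at hbad1
    exact le_of_mul_le_mul_left hbad1 hτ0
  have hgood1 : z / 2 ≤ ∑ k ∈ good, m k := by linarith
  -- each interval has small mass
  have hint : ∀ i : Fin n, ∑ k ∈ good.filter (fun k : ℤ => x i < δ * k ∧ δ * k < x i + L i), m k ≤
      τ * (2 * L i) ^ s := by
    intro i
    have hLi : 0 < L i := lt_of_lt_of_le hδ (hL i)
    have hLs : 0 < (2 * L i) ^ s := by positivity
    set J := good.filter (fun k : ℤ => x i < δ * k ∧ δ * k < x i + L i) with hJ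
    rcases J.eq_empty_or_nonempty with h0 | ⟨k0, hk0⟩
    · rw [h0, sum_empty]
      positivity
    · have hk0' := mem_filter.1 hk0
      have hk0g := (mem_filter.1 hk0'.1)
      have h3 : ∑ l ∈ J, m l * (2 * L i) ^ (-s) ≤ τ := by
        calc ∑ l ∈ J, m l * (2 * L i) ^ (-s) ≤ ∑ l ∈ J, m l * (δ * (|((k0 : ℝ) - l)| + 1)) ^ (-s) := by
              refine sum_le_sum fun l hl => ?_
              have hl' := mem_filter.1 hl
              have hlV := (mem_filter.1 hl'.1).1
              refine mul_le_mul_of_nonneg_left ?_ (hm l hlV)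
              have hb : δ * (|((k0 : ℝ) - l)| + 1) ≤ 2 * L i := by
                have h4 : δ * |((k0 : ℝ) - l)| ≤ L i := by
                  have e : δ * |((k0 : ℝ) - l)| = |δ * ((k0 : ℝ) - l)| := by rw [abs_mul, abs_of_pos hδ]
                  rw [e, abs_le]
                  constructor <;> nlinarith [hl'.2.1, hl'.2.2, hk0'.2.1, hk0'.2.2]
                have h5 := hL i
                nlinarith
              exact Real.rpow_le_rpow_of_nonpos (by positivity) hb (by linarith)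
          _ ≤ pot k0 := by
              simp only [hpot]
              exact sum_le_sum_of_subset_of_nonneg ((filter_subset _ _).trans (filter_subset _ _))
                fun l hl _ => mul_nonneg (hm l hl) (hw k0 l)
          _ ≤ τ := not_lt.1 hk0g.2
      rw [← sum_mul, Real.rpow_neg (by positivity), ← div_eq_mul_inv, div_le_iff₀ hLs] at h3
      exact h3
  have hsum : ∑ k ∈ good, m k ≤
      ∑ i, ∑ k ∈ good.filter (fun k : ℤ => x i < δ * k ∧ δ * k < x i + L i), m k := by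
    have e : ∀ i : Fin n, ∑ k ∈ good.filter (fun k : ℤ => x i < δ * k ∧ δ * k < x i + L i), m k =
        ∑ k ∈ good, if x i < δ * k ∧ δ * k < x i + L i then m k else 0 := fun i => sum_filter _ _
    rw [sum_congr rfl fun i _ => e i, sum_comm]
    refine sum_le_sum fun k hk => ?_
    have hkV := (mem_filter.1 hk).1
    obtain ⟨i, hi⟩ := hcov k hkV
    have h3 : (if x i < δ * k ∧ δ * k < x i + L i then m k else 0) ≤
        ∑ i, if x i < δ * k ∧ δ * k < x i + L i then m k else 0 :=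
      single_le_sum (f := fun i => if x i < δ * k ∧ δ * k < x i + L i then m k else 0)
        (fun i _ => by
          split_ifs
          · exact hm k hkV
          · exact le_refl _) (mem_univ i)
    rwa [if_pos hi] at h3
  have h3 : z / 2 ≤ τ * (2 ^ s * ∑ i, (L i) ^ s) := by
    refine hgood1.trans (hsum.trans ((sum_le_sum fun i _ => hint i).trans (le_of_eq ?_)))
    rw [← mul_sum]
    congr 1
    rw [mul_sum]
    refine sum_congr rfl fun i _ => ?_
    rw [Real.mul_rpow (by norm_num) (hδ.le.trans (hL i))]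
  have h2s : (0 : ℝ) < 2 ^ s := by positivity
  rw [div_le_iff₀ (by positivity)]
  have h4 : z / 2 * (2 * z) ≤ τ * (2 ^ s * ∑ i, (L i) ^ s) * (2 * z) :=
    mul_le_mul_of_nonneg_right h3 (by positivity)
  have e : τ * (2 ^ s * ∑ i, (L i) ^ s) * (2 * z) = (∑ i, (L i) ^ s) * (4 * A * 2 ^ s) := by
    rw [hτ]
    field_simp
    ring
  rw [e] at h4
  nlinarith

/-- moving a measure to the lattice -/
theorem wts (S : Set ℝ) (δ : ℝ) (T : Finset ℤ) (ν : Measure ℝ) [IsProbabilityMeasure ν] (hν : ν Sᶜ = 0)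
    (hT : ∀ x ∈ S, ⌊x / δ⌋ ∈ T) :
    ∃ v : ℤ → ℝ, (∀ k, 0 ≤ v k) ∧ ∑ k ∈ T, v k = 1 ∧
      ∀ (G : ℤ → ℤ → ℝ) (H : ℝ → ℝ → ℝ≥0∞), (∀ k ∈ T, ∀ l ∈ T, 0 ≤ G k l) →
        (∀ x ∈ S, ∀ y ∈ S, ENNReal.ofReal (G ⌊x / δ⌋ ⌊y / δ⌋) ≤ H x y) → ∫⁻ x, ∫⁻ y, H x y ∂ν ∂ν ≠ ∞ →
        ∑ k ∈ T, ∑ l ∈ T, v k * v l * G k l ≤ (∫⁻ x, ∫⁻ y, H x y ∂ν ∂ν).toReal := by
  classical
  set A : ℤ → Set ℝ := fun k => {x | ⌊x / δ⌋ = k} with hA
  have hfl : Measurable fun x : ℝ => ⌊x / δ⌋ := Int.measurable_floor.comp (measurable_id.div_const δ)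
  have hAm : ∀ k, MeasurableSet (A k) := fun k => hfl (measurableSet_singleton k)
  have hae : ∀ᵐ x ∂ν, x ∈ S := by
    rw [ae_iff]
    exact hν
  refine ⟨fun k => (ν (A k)).toReal, fun k => ENNReal.toReal_nonneg, ?_, ?_⟩
  · have h1 : ν (⋃ k ∈ T, A k) = ∑ k ∈ T, ν (A k) :=
      measure_biUnion_finset (fun k _ l _ hkl => by
        refine Set.disjoint_left.2 fun x hx hx' => hkl ?_
        exact hx.symm.trans hx') fun k _ => hAm k
    have h2 : ν (⋃ k ∈ T, A k) = 1 := by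
      rw [← prob_compl_eq_zero_iff (Finset.measurableSet_biUnion T fun k _ => hAm k)]
      refine measure_mono_null ?_ hν
      intro x hx hxS
      exact hx (Set.mem_iUnion₂.2 ⟨_, hT x hxS, rfl⟩)
    rw [← ENNReal.toReal_sum (fun k _ => measure_ne_top _ _), ← h1, h2, ENNReal.toReal_one]
  · intro G H hG hGH hfin
    -- integrals of functions of the floor
    have key : ∀ φ : ℤ → ℝ≥0∞, ∑ k ∈ T, φ k * ν (A k) ≤ ∫⁻ x, φ ⌊x / δ⌋ ∂ν := by
      intro φ
      have h1 : ∑ k ∈ T, φ k * ν (A k) = ∫⁻ x, ∑ k ∈ T, (A k).indicator (fun _ => φ k) x ∂ν := by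
        rw [lintegral_finsetSum _ fun k _ => measurable_const.indicator (hAm k)]
        exact sum_congr rfl fun k _ => (lintegral_indicator_const (hAm k) _).symm
      rw [h1]
      refine lintegral_mono fun x => ?_
      by_cases hx : ⌊x / δ⌋ ∈ T
      · rw [sum_eq_single_of_mem _ hx]
        · rw [Set.indicator_of_mem (show x ∈ A ⌊x / δ⌋ from rfl)]
        · intro k _ hk
          exact Set.indicator_of_notMem (fun h => hk (show ⌊x / δ⌋ = k from h).symm) _
      · rw [sum_eq_zero]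
        · exact bot_le
        · intro k hk
          exact Set.indicator_of_notMem (fun h => hx ((show ⌊x / δ⌋ = k from h) ▸ hk)) _
    have h1 : ∑ k ∈ T, (∑ l ∈ T, ENNReal.ofReal (G k l) * ν (A l)) * ν (A k) ≤ ∫⁻ x, ∫⁻ y, H x y ∂ν ∂ν := by
      refine (key fun k => ∑ l ∈ T, ENNReal.ofReal (G k l) * ν (A l)).trans ?_
      refine lintegral_mono_ae ?_
      filter_upwards [hae] with x hx
      refine (key fun l => ENNReal.ofReal (G ⌊x / δ⌋ l)).trans ?_
      refine lintegral_mono_ae ?_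
      filter_upwards [hae] with y hy
      exact hGH x hx y hy
    rw [← ENNReal.ofReal_le_iff_le_toReal hfin]
    refine le_trans (le_of_eq ?_) h1
    have hnn : ∀ k ∈ T, ∀ l ∈ T, 0 ≤ (ν (A k)).toReal * (ν (A l)).toReal * G k l := fun k hk l hl =>
      mul_nonneg (mul_nonneg ENNReal.toReal_nonneg ENNReal.toReal_nonneg) (hG k hk l hl)
    rw [ENNReal.ofReal_sum_of_nonneg fun k hk => sum_nonneg fun l hl => hnn k hk l hl]
    refine sum_congr rfl fun k hk => ?_
    rw [ENNReal.ofReal_sum_of_nonneg fun l hl => hnn k hk l hl, sum_mul]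
    refine sum_congr rfl fun l hl => ?_
    rw [ENNReal.ofReal_mul (mul_nonneg ENNReal.toReal_nonneg ENNReal.toReal_nonneg),
      ENNReal.ofReal_mul ENNReal.toReal_nonneg, ENNReal.ofReal_toReal (measure_ne_top _ _),
      ENNReal.ofReal_toReal (measure_ne_top _ _)]
    ring

end Pool.Agent.Helper46K9.BC
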