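import Pool.Agent.Helper46K9.BC.DlA

/-!
Library for [DL]: cheap covers of the part of a compact set in a set of real numbers.
-/

set_option autoImplicit false

namespace Pool.Agent.Helper46K9.BC

open Finset MeasureTheory TopologicalSpace Filter Topology
open scoped ENNReal

/-- the real points of a compact set -/
def TT (K : NonemptyCompacts ℂ) : Set ℝ := {y : ℝ | (y : ℂ) ∈ K}

/-- The image of a set of reals. -/
def IMs (S : Set ℝ) : Set ℂ := (fun x : ℝ => (x : ℂ)) '' S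

/-- Closed neighbourhoods of the image. -/
def CNs (S : Set ℝ) (n : ℕ) : Set ℂ := Metric.cthickening (1 / ((n : ℝ) + 1)) (IMs S)

/-- strips and the complement of a closed set -/
def OCS (C : Set ℂ) {n : ℕ} (x L : Fin n → ℝ) : Set ℂ :=
  {z | (∃ i, x i < z.re ∧ z.re < x i + L i) ∨ z ∉ C}

theorem isOpen_OCS {C : Set ℂ} (hC : IsClosed C) {n : ℕ} (x L : Fin n → ℝ) : IsOpen (OCS C x L) := by
  have e : OCS C x L = (⋃ i, {z : ℂ | x i < z.re ∧ z.re < x i + L i}) ∪ Cᶜ := by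
    ext z
    simp only [OCS, Set.mem_ofPred_eq, Set.mem_union, Set.mem_iUnion, Set.mem_compl_iff]
  rw [e]
  refine (isOpen_iUnion fun i => ?_).union hC.isOpen_compl
  exact (isOpen_lt continuous_const Complex.continuous_re).inter
    (isOpen_lt Complex.continuous_re continuous_const)

/-- The compact sets whose part in `C` can be covered cheaply. -/
def ECS (s κ η : ℝ) (C : Set ℂ) : Set (NonemptyCompacts ℂ) :=
  {K | ∃ (n : ℕ) (x L : Fin n → ℝ), (∀ i, η ≤ L i) ∧ ∑ i, (L i) ^ s < κ ∧ (K : Set ℂ) ⊆ OCS C x L}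

theorem isOpen_ECS (s κ η : ℝ) {C : Set ℂ} (hC : IsClosed C) : IsOpen (ECS s κ η C) := by
  have e : ECS s κ η C = ⋃ (n : ℕ) (x : Fin n → ℝ) (L : Fin n → ℝ)
      (_ : (∀ i, η ≤ L i) ∧ ∑ i, (L i) ^ s < κ), {K : NonemptyCompacts ℂ | (K : Set ℂ) ⊆ OCS C x L} := by
    ext K
    simp only [ECS, Set.mem_ofPred_eq, Set.mem_iUnion, exists_prop, and_assoc]
  rw [e]
  exact isOpen_iUnion fun n => isOpen_iUnion fun x => isOpen_iUnion fun L => isOpen_iUnion
    fun _ => NonemptyCompacts.isOpen_subsets_of_isOpen (isOpen_OCS hC x L)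

theorem ECS_mono {s κ η η' : ℝ} {C C' : Set ℂ} (h1 : C' ⊆ C) (h2 : η' ≤ η) :
    ECS s κ η C ⊆ ECS s κ η' C' := by
  rintro K ⟨n, x, L, h3, h4, h5⟩
  refine ⟨n, x, L, fun i => h2.trans (h3 i), h4, h5.trans ?_⟩
  rintro z (h | h)
  · exact Or.inl h
  · exact Or.inr fun h' => h (h1 h')

theorem CNs_mono {S : Set ℝ} {p q : ℕ} (h : p ≤ q) : CNs S q ⊆ CNs S p :=
  Metric.cthickening_mono (Nat.one_div_le_one_div h) _

theorem CNs_closed (S : Set ℝ) (p : ℕ) : IsClosed (CNs S p) := Metric.isClosed_cthickening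

theorem mem_IMs {S : Set ℝ} (hS : IsCompact S) {z : ℂ} (h : ∀ n, z ∈ CNs S n) : z ∈ IMs S := by
  have h1 : z ∈ closure (IMs S) := by
    rw [Metric.closure_eq_iInter_cthickening' (IMs S) (Set.range fun n : ℕ => 1 / ((n : ℝ) + 1)) ?_]
    · rw [Set.mem_iInter₂]
      rintro t ⟨n, rfl⟩
      exact h n
    · intro ε hε
      obtain ⟨n, hn⟩ := exists_nat_one_div_lt hε
      exact ⟨_, ⟨n, rfl⟩, Set.mem_Ioc.mpr ⟨by positivity, hn.le⟩⟩
  have hc : IsClosed (IMs S) := (hS.image Complex.continuous_ofReal).isClosed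
  rwa [hc.closure_eq] at h1

/-- Sets of zero Hausdorff measure have cheap covers. -/
theorem null_cheap_s {s κ : ℝ} (hs : 0 < s) (hκ : 0 < κ) {S : Set ℝ} (hS : IsCompact S)
    {K : NonemptyCompacts ℂ} (h0 : μH[s] (TT K ∩ S) = 0) :
    ∃ p : ℕ, K ∈ ECS s κ (1 / ((p : ℝ) + 1)) (CNs S p) := by
  have h4s : (0 : ℝ) < 4 ^ s := by positivity
  have hε : 0 < κ / (2 * 4 ^ s) := by positivity
  obtain ⟨t, r, ht, hr, hsum⟩ := cov (TT K ∩ S) s hs h0 (κ / (2 * 4 ^ s)) hε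
  set I := TT K ∩ S with hI
  have hKc : IsCompact (K : Set ℂ) := K.isCompact
  have hIc : IsCompact I := by
    have h1 : IsClosed (TT K) := by
      have : TT K = (fun y : ℝ => (y : ℂ)) ⁻¹' (K : Set ℂ) := rfl
      rw [this]
      exact hKc.isClosed.preimage Complex.continuous_ofReal
    exact hS.inter_left h1
  classical
  set y : ℕ → ℝ := fun n => if h : (t n).Nonempty then h.choose else 0 with hy
  have hty : ∀ n, ∀ z ∈ t n, |z - y n| ≤ r n := by
    intro n z hz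
    have hne : (t n).Nonempty := ⟨z, hz⟩
    have h1 : y n ∈ t n := by
      rw [hy]; simp only; rw [dif_pos hne]; exact hne.choose_spec
    have h2 : edist z (y n) ≤ ENNReal.ofReal (r n) :=
      (Metric.edist_le_ediam_of_mem hz h1).trans (hr n).2.2
    rwa [edist_dist, ENNReal.ofReal_le_ofReal_iff (hr n).1.le, Real.dist_eq] at h2
  obtain ⟨S0, hS0⟩ := hIc.elim_finite_subcover
    (fun n => Set.Ioo (y n - 2 * r n) (y n + 2 * r n)) (fun n => isOpen_Ioo)
    (by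
      intro z hz
      obtain ⟨n, hn⟩ := Set.mem_iUnion.mp (ht hz)
      rw [Set.mem_iUnion]
      refine ⟨n, ?_⟩
      have h1 := abs_le.mp (hty n z hn)
      have h2 := (hr n).1
      constructor <;> linarith)
  set eq := S0.equivFin.symm with heq
  set x : Fin S0.card → ℝ := fun i => y (eq i) - 2 * r (eq i) with hx
  set Ln : Fin S0.card → ℝ := fun i => 4 * r (eq i) with hLn
  have hL0 : ∀ i, 0 < Ln i := fun i => by
    have := (hr (eq i)).1
    simp only [hLn]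
    positivity
  have hsumL : ∑ i, (Ln i) ^ s < κ := by
    have h1 : ∑ i, (Ln i) ^ s = 4 ^ s * ∑ n ∈ S0, (r n) ^ s := by
      rw [← Finset.sum_coe_sort S0 (fun n => (r n) ^ s), Finset.mul_sum]
      refine Fintype.sum_equiv eq _ _ (fun i => ?_)
      simp only [hLn]
      rw [Real.mul_rpow (by norm_num) (hr _).1.le]
    have h2 : ∑ n ∈ S0, (r n) ^ s ≤ κ / (2 * 4 ^ s) := by
      have h3 : ENNReal.ofReal (∑ n ∈ S0, (r n) ^ s) ≤ ENNReal.ofReal (κ / (2 * 4 ^ s)) := by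
        rw [ENNReal.ofReal_sum_of_nonneg (fun n _ => Real.rpow_nonneg (hr n).1.le _)]
        exact (ENNReal.sum_le_tsum S0).trans hsum
      exact (ENNReal.ofReal_le_ofReal_iff hε.le).mp h3
    rw [h1]
    have h3 : 4 ^ s * ∑ n ∈ S0, (r n) ^ s ≤ 4 ^ s * (κ / (2 * 4 ^ s)) := mul_le_mul_of_nonneg_left h2 h4s.le
    have h4 : (4 : ℝ) ^ s * (κ / (2 * 4 ^ s)) = κ / 2 := by field_simp
    linarith
  obtain ⟨η, hη0, hη⟩ : ∃ η : ℝ, 0 < η ∧ ∀ i, η ≤ Ln i := by
    rcases Nat.eq_zero_or_pos S0.card with h | h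
    · refine ⟨1, one_pos, fun i => ?_⟩
      have := i.2
      omega
    · have : Nonempty (Fin S0.card) := ⟨⟨0, h⟩⟩
      obtain ⟨i0, hi0⟩ := Finite.exists_min Ln
      exact ⟨Ln i0, hL0 i0, hi0⟩
  set V : Set ℂ := {z | ∃ i, x i < z.re ∧ z.re < x i + Ln i} with hV
  have hVo : IsOpen V := by
    have e1 : V = ⋃ i, {z : ℂ | x i < z.re ∧ z.re < x i + Ln i} := by
      ext z
      simp only [hV, Set.mem_ofPred_eq, Set.mem_iUnion]
    rw [e1]
    exact isOpen_iUnion fun i => (isOpen_lt continuous_const Complex.continuous_re).inter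
        (isOpen_lt Complex.continuous_re continuous_const)
  have hKV : IsCompact ((K : Set ℂ) \ V) := hKc.diff hVo
  obtain ⟨p0, hp0⟩ : ∃ p : ℕ, ¬ (((K : Set ℂ) \ V) ∩ CNs S p).Nonempty := by
    by_contra hcon
    push Not at hcon
    have hc : ∀ n : ℕ, IsCompact (((K : Set ℂ) \ V) ∩ CNs S n) :=
      fun n => hKV.inter_right (CNs_closed S n)
    have hmono : ∀ n : ℕ, ((K : Set ℂ) \ V) ∩ CNs S (n + 1) ⊆ ((K : Set ℂ) \ V) ∩ CNs S n :=
      fun n z hz => ⟨hz.1, CNs_mono (Nat.le_succ n) hz.2⟩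
    obtain ⟨z, hz⟩ := IsCompact.nonempty_iInter_of_sequence_nonempty_isCompact_isClosed _ hmono
      (fun n => Set.nonempty_iff_ne_empty.2 (by simpa [Set.nonempty_iff_ne_empty] using hcon n)) (hc 0)
      (fun n => (hc n).isClosed)
    rw [Set.mem_iInter] at hz
    obtain ⟨w, hw, rfl⟩ := mem_IMs hS (fun n => (hz n).2)
    have hwK := (hz 0).1
    have hwI : w ∈ I := ⟨hwK.1, hw⟩
    have h1 := hS0 hwI
    rw [Set.mem_iUnion₂] at h1
    obtain ⟨n, hn, hn1, hn2⟩ := h1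
    apply hwK.2
    refine ⟨S0.equivFin ⟨n, hn⟩, ?_, ?_⟩
    · simp only [hx, heq, Equiv.symm_apply_apply, Complex.ofReal_re]
      exact hn1
    · simp only [hx, hLn, heq, Equiv.symm_apply_apply, Complex.ofReal_re]
      linarith
  obtain ⟨n, hn⟩ := exists_nat_one_div_lt hη0
  refine ⟨max p0 n, S0.card, x, Ln, fun i => ?_, hsumL, ?_⟩
  · refine le_trans ?_ (hη i)
    exact (Nat.one_div_le_one_div (le_max_right p0 n)).trans hn.le
  · intro z hz
    by_cases hzV : z ∈ V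
    · exact Or.inl hzV
    · right
      intro hzC
      exact hp0 ⟨z, ⟨hz, hzV⟩, CNs_mono (le_max_left p0 n) hzC⟩

/-- the good set -/
theorem asm [MeasurableSpace (NonemptyCompacts ℂ)] [BorelSpace (NonemptyCompacts ℂ)]
    (μ : Measure (NonemptyCompacts ℂ)) [IsProbabilityMeasure μ] {s κ : ℝ} (hs : 0 < s) (hκ : 0 < κ)
    {S : Set ℝ} (hS : IsCompact S) (q : ℝ≥0∞)
    (h : ∀ p : ℕ, q ≤ μ (ECS s κ (1 / ((p : ℝ) + 1)) (CNs S p))ᶜ) :
    ∃ G : Set (NonemptyCompacts ℂ), MeasurableSet G ∧ q ≤ μ G ∧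
      ∀ K ∈ G, ENNReal.ofReal s ≤ dimH (TT K ∩ S) := by
  have hcl : ∀ p : ℕ, IsClosed (ECS s κ (1 / ((p : ℝ) + 1)) (CNs S p))ᶜ := fun p =>
    (isOpen_ECS _ _ _ (CNs_closed S p)).isClosed_compl
  have hanti : Antitone fun p : ℕ => (ECS s κ (1 / ((p : ℝ) + 1)) (CNs S p))ᶜ := by
    intro p q hpq
    exact Set.compl_subset_compl.2 (ECS_mono (CNs_mono hpq) (Nat.one_div_le_one_div hpq))
  refine ⟨⋂ p : ℕ, (ECS s κ (1 / ((p : ℝ) + 1)) (CNs S p))ᶜ,
    MeasurableSet.iInter fun p => (hcl p).measurableSet, ?_, ?_⟩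
  · rw [hanti.measure_iInter (fun p => (hcl p).measurableSet.nullMeasurableSet) ⟨0, measure_ne_top _ _⟩]
    exact le_iInf h
  · intro K hK
    rw [Set.mem_iInter] at hK
    have h1 : μH[s] (TT K ∩ S) ≠ 0 := by
      intro h0
      obtain ⟨p, hp⟩ := null_cheap_s hs hκ hS h0
      exact hK p hp
    have h2 : μH[(s.toNNReal : ℝ)] (TT K ∩ S) ≠ 0 := by
      rwa [Real.coe_toNNReal s hs.le]
    exact le_dimH_of_hausdorffMeasure_ne_zero h2

end Pool.Agent.Helper46K9.BC
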