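import Pool.Agent.Helper77K9.BC.Lw
import Pool.Agent.Helper46K9.BC.DlB

/-!
[DL]: lower bound for the dimension of the set of hit points in a fixed set.
-/

set_option autoImplicit false
set_option maxHeartbeats 1000000

namespace Pool.Agent.Helper46K9.BC

open H974 H973 H934E Finset MeasureTheory TopologicalSpace Filter Topology
open Pool.Agent.Helper77K9.BC
open H731C (VE P2)
open TH868.CT (NX WX Hit kern en ps ps_pos Zf)
open scoped ENNReal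

/-- energies of the visited points -/
noncomputable def Ef (s δ : ℝ) (T : Finset ℤ) (v : ℤ → ℝ) (F : Finset Edg) : ℝ :=
  ∑ k ∈ T, ∑ l ∈ T, v k / ps k * (v l / ps l) * (δ * (|((k : ℝ) - l)| + 1)) ^ (-s) *
    ind (WX 0 F (k, 0) ∧ WX 0 F (l, 0))

theorem Ef_nonneg {s δ : ℝ} (hδ : 0 < δ) {T : Finset ℤ} (hT : ∀ x ∈ T, 1 ≤ x) {v : ℤ → ℝ}
    (hv : ∀ x ∈ T, 0 ≤ v x) (F : Finset Edg) : 0 ≤ Ef s δ T v F := by
  unfold Ef
  refine sum_nonneg fun k hk => sum_nonneg fun l hl => ?_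
  have h1 := ps_pos (n := k) (by have := hT k hk; omega)
  have h2 := ps_pos (n := l) (by have := hT l hl; omega)
  have h3 := hv k hk
  have h4 := hv l hl
  have h5 := ind_nonneg (WX 0 F (k, 0) ∧ WX 0 F (l, 0))
  positivity

theorem Ef_mean {C s δ : ℝ} (hδ : 0 < δ) {T : Finset ℤ} (hT : ∀ x ∈ T, 1 ≤ x) {v : ℤ → ℝ}
    (hv : ∀ x ∈ T, 0 ≤ v x) {N : ℤ}
    (h : ∀ x ∈ T, ∀ y ∈ T, P2 (VE (-N) N 0 N) (fun F => WX 0 F (x, 0) ∧ WX 0 F (y, 0)) ≤
      C * (ps x * ps y * kern x y)) :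
    H934E.EE (VE (-N) N 0 N) (Ef s δ T v) ≤
      C * ∑ x ∈ T, ∑ y ∈ T, v x * v y * (kern x y * (δ * (|((x : ℝ) - y)| + 1)) ^ (-s)) := by
  unfold Ef H934E.EE
  rw [Ex_sum, Finset.mul_sum]
  apply Finset.sum_le_sum
  intro x hx
  rw [Ex_sum, Finset.mul_sum]
  apply Finset.sum_le_sum
  intro y hy
  have hpx := ps_pos (n := x) (by have := hT x hx; omega)
  have hpy := ps_pos (n := y) (by have := hT y hy; omega)
  have h1 := h x hx y hy
  rw [Ex_mul_left]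
  have h2 : 0 ≤ v x / ps x * (v y / ps y) * (δ * (|((x : ℝ) - y)| + 1)) ^ (-s) :=
    mul_nonneg (mul_nonneg (div_nonneg (hv x hx) hpx.le) (div_nonneg (hv y hy) hpy.le)) (by positivity)
  calc _ ≤ v x / ps x * (v y / ps y) * (δ * (|((x : ℝ) - y)| + 1)) ^ (-s) * (C * (ps x * ps y * kern x y)) :=
        mul_le_mul_of_nonneg_left h1 h2
    _ = C * (v x * v y * (kern x y * (δ * (|((x : ℝ) - y)| + 1)) ^ (-s))) := by field_simp

theorem prob : ∃ c z C : ℝ, 0 < c ∧ 0 < z ∧ 0 < C ∧ ∀ (s δ : ℝ) (T : Finset ℤ) (N : ℤ), 0 < δ →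
    (∀ x ∈ T, 1 ≤ x ∧ 40 * x ≤ N) → ∀ v : ℤ → ℝ, (∀ x ∈ T, 0 ≤ v x) → ∑ x ∈ T, v x = 1 →
    ∀ E0 I0 : ℝ, 0 < E0 → 0 < I0 → en T v ≤ E0 →
    ∑ x ∈ T, ∑ y ∈ T, v x * v y * (kern x y * (δ * (|((x : ℝ) - y)| + 1)) ^ (-s)) ≤ I0 →
    c / E0 ≤ Q (VE (-N) N 0 N) (fun F => z ≤ Zf T v F ∧ Ef s δ T v F < C * I0 * E0) := by
  obtain ⟨c, hc, h1⟩ := TH868.CT.one_low
  obtain ⟨C, hC, h2⟩ := TH868.CT.two_kern
  refine ⟨c ^ 2 / (8 * C), c / 2, 8 * C ^ 2 / c ^ 2, by positivity, by positivity, by positivity, ?_⟩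
  intro s δ T N hδ hT v hv hv1 E0 I0 hE hI hen hIs
  have hT1 : ∀ x ∈ T, 1 ≤ x := fun x hx => (hT x hx).1
  have m1 := TH868.CT.Zf_mean (c := c) hT1 hv (N := N) (fun x hx => h1 x N (hT x hx).1 (hT x hx).2)
  rw [hv1, mul_one] at m1
  have hk : ∀ x ∈ T, ∀ y ∈ T, P2 (VE (-N) N 0 N) (fun F => WX 0 F (x, 0) ∧ WX 0 F (y, 0)) ≤
      C * (ps x * ps y * kern x y) := fun x hx y hy =>
    h2 x y N (hT x hx).1 (hT y hy).1 (by have := hT x hx; omega) (by have := hT y hy; omega)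
  have m2 := TH868.CT.Zf_mul (C := C) hT1 hT1 hv hv (N := N) hk
  have m2' : H934E.EE (VE (-N) N 0 N) (fun F => Zf T v F * Zf T v F) ≤ C * E0 :=
    m2.trans (mul_le_mul_of_nonneg_left hen hC.le)
  have h3 := H934E.paley (S := VE (-N) N 0 N) (f := Zf T v) (fun F _ => TH868.CT.Zf_nonneg hT1 hv F)
    hc (V := C * E0) (by positivity) m1 m2'
  have hA : 0 < 8 * C ^ 2 / c ^ 2 * I0 * E0 := by positivity
  have h4 := H934E.markov (S := VE (-N) N 0 N) (f := Ef s δ T v) (fun F _ => Ef_nonneg hδ hT1 hv F) hA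
  have h5 : H934E.EE (VE (-N) N 0 N) (Ef s δ T v) ≤ C * I0 :=
    (Ef_mean hδ hT1 hv hk).trans (mul_le_mul_of_nonneg_left hIs hC.le)
  have h6 : H934E.EE (VE (-N) N 0 N) (Ef s δ T v) / (8 * C ^ 2 / c ^ 2 * I0 * E0) ≤
      c ^ 2 / (8 * C) / E0 := by
    refine (div_le_div_of_nonneg_right h5 hA.le).trans (le_of_eq ?_)
    field_simp
  have h7 : Q (VE (-N) N 0 N) (fun F => c / 2 ≤ Zf T v F) ≤
      Q (VE (-N) N 0 N) (fun F => c / 2 ≤ Zf T v F ∧ Ef s δ T v F < 8 * C ^ 2 / c ^ 2 * I0 * E0) +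
      Q (VE (-N) N 0 N) (fun F => 8 * C ^ 2 / c ^ 2 * I0 * E0 ≤ Ef s δ T v F) := by
    refine le_trans (Q_mono fun F _ hF => ?_) (Pr_or_le okhalf _ _ _)
    rcases lt_or_ge (Ef s δ T v F) (8 * C ^ 2 / c ^ 2 * I0 * E0) with h | h
    · exact Or.inl ⟨hF, h⟩
    · exact Or.inr h
  have h8 : c ^ 2 / (4 * (C * E0)) = c ^ 2 / (8 * C) / E0 + c ^ 2 / (8 * C) / E0 := by
    field_simp
    ring
  rw [h8] at h3
  linarith

/-- comparison of the kernels -/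
theorem kern_floor {δ x y : ℝ} (hδ : 0 < δ) (hx : δ ≤ x) (hy : δ ≤ y) :
    ENNReal.ofReal (kern ⌊x / δ⌋ ⌊y / δ⌋) ≤ kerR x y := by
  have hx0 : 0 < x := hδ.trans_le hx
  have hy0 : 0 < y := hδ.trans_le hy
  have f1 : (⌊x / δ⌋ : ℝ) ≤ x / δ := Int.floor_le _
  have f2 : x / δ < (⌊x / δ⌋ : ℝ) + 1 := Int.lt_floor_add_one _
  have f3 : (⌊y / δ⌋ : ℝ) ≤ y / δ := Int.floor_le _
  have f4 : y / δ < (⌊y / δ⌋ : ℝ) + 1 := Int.lt_floor_add_one _
  have g1 : (1 : ℝ) ≤ x / δ := by rwa [one_le_div hδ]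
  have g2 : (1 : ℝ) ≤ ⌊x / δ⌋ := by
    have : (1 : ℤ) ≤ ⌊x / δ⌋ := Int.le_floor.2 (by exact_mod_cast g1)
    exact_mod_cast this
  unfold kern kerR
  push_cast
  have hmax : (0 : ℝ) < max (⌊x / δ⌋ : ℝ) (⌊y / δ⌋ : ℝ) := lt_max_of_lt_left (by linarith)
  rw [← ENNReal.ofReal_rpow_of_nonneg (by positivity) (by norm_num)]
  refine ENNReal.rpow_le_rpow ?_ (by norm_num)
  rcases eq_or_ne x y with hxy | hxy
  · have h0 : ENNReal.ofReal |x - y| = 0 := by rw [hxy, sub_self, abs_zero, ENNReal.ofReal_zero]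
    rw [h0, ENNReal.div_zero (ENNReal.ofReal_pos.2 (lt_max_of_lt_left hx0)).ne']
    exact le_top
  · have hd : 0 < |x - y| := abs_pos.2 (sub_ne_zero.2 hxy)
    rw [← ENNReal.ofReal_div_of_pos hd]
    refine ENNReal.ofReal_le_ofReal ?_
    have h1 : max (⌊x / δ⌋ : ℝ) (⌊y / δ⌋ : ℝ) ≤ max x y / δ := by
      refine max_le ?_ ?_
      · exact f1.trans (div_le_div_of_nonneg_right (le_max_left _ _) hδ.le)
      · exact f3.trans (div_le_div_of_nonneg_right (le_max_right _ _) hδ.le)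
    have h2 : |x - y| / δ ≤ |(⌊x / δ⌋ : ℝ) - ⌊y / δ⌋| + 1 := by
      have e : |x - y| / δ = |x / δ - y / δ| := by
        rw [← sub_div, abs_div, abs_of_pos hδ]
      rw [e, abs_le]
      have a1 := neg_abs_le ((⌊x / δ⌋ : ℝ) - ⌊y / δ⌋)
      have a2 := le_abs_self ((⌊x / δ⌋ : ℝ) - ⌊y / δ⌋)
      constructor <;> linarith
    have hd' : 0 < |x - y| / δ := by positivity
    calc max (⌊x / δ⌋ : ℝ) (⌊y / δ⌋ : ℝ) / (|(⌊x / δ⌋ : ℝ) - ⌊y / δ⌋| + 1)
        ≤ (max x y / δ) / (|x - y| / δ) := div_le_div₀ (by positivity) h1 hd' h2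
      _ = max x y / |x - y| := by field_simp

theorem wt_floor {δ s x y : ℝ} (hδ : 0 < δ) (hs : 0 < s) :
    ENNReal.ofReal ((δ * (|((⌊x / δ⌋ : ℤ) : ℝ) - ((⌊y / δ⌋ : ℤ) : ℝ)| + 1)) ^ (-s)) ≤ (edist x y) ^ (-s) := by
  have f1 : (⌊x / δ⌋ : ℝ) ≤ x / δ := Int.floor_le _
  have f2 : x / δ < (⌊x / δ⌋ : ℝ) + 1 := Int.lt_floor_add_one _
  have f3 : (⌊y / δ⌋ : ℝ) ≤ y / δ := Int.floor_le _
  have f4 : y / δ < (⌊y / δ⌋ : ℝ) + 1 := Int.lt_floor_add_one _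
  rcases eq_or_ne x y with hxy | hxy
  · rw [hxy, edist_self, ENNReal.zero_rpow_of_neg (by linarith)]
    exact le_top
  · have hd : 0 < |x - y| := abs_pos.2 (sub_ne_zero.2 hxy)
    rw [edist_dist, Real.dist_eq, ENNReal.ofReal_rpow_of_pos hd]
    refine ENNReal.ofReal_le_ofReal (Real.rpow_le_rpow_of_nonpos hd ?_ (by linarith))
    have h2 : |x - y| / δ ≤ |(⌊x / δ⌋ : ℝ) - ⌊y / δ⌋| + 1 := by
      have e : |x - y| / δ = |x / δ - y / δ| := by
        rw [← sub_div, abs_div, abs_of_pos hδ]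
      rw [e, abs_le]
      have a1 := neg_abs_le ((⌊x / δ⌋ : ℝ) - ⌊y / δ⌋)
      have a2 := le_abs_self ((⌊x / δ⌋ : ℝ) - ⌊y / δ⌋)
      constructor <;> linarith
    rw [div_le_iff₀ hδ] at h2
    linarith

/-- On the event the trace has no cheap cover. -/
theorem trace_good (R : Rect) {δ s z A : ℝ} (hδ : 0 < δ) (hs : 0 ≤ s) (hz : 0 < z) (hA : 0 < A) {S : Set ℝ}
    {T : Finset ℤ} {v : ℤ → ℝ} (hv : ∀ x ∈ T, 0 ≤ v x) (hT : ∀ k ∈ T, ∃ x ∈ S, k = ⌊x / δ⌋)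
    {M : ℤ} (hM : M ≤ ⌊R.L0 / δ⌋ - 3) (hT1 : ∀ k ∈ T, 1 ≤ k ∧ 40 * k ≤ M) {p : ℕ}
    (hp : δ + δ ≤ 1 / ((p : ℝ) + 1)) {F : Finset Edg}
    (hF : z ≤ Zf T v (F ∩ VE (-M) M 0 M) ∧ Ef s δ T v (F ∩ VE (-M) M 0 M) < A) :
    R.trace hδ F ∉ ECS s (z ^ 2 / (4 * A * 2 ^ s)) (1 / ((p : ℝ) + 1)) (CNs S p) := by
  classical
  rintro ⟨n, x, L, hL, hsum, hcov⟩
  set F' := F ∩ VE (-M) M 0 M with hF'
  set V := T.filter (fun k => WX 0 F' (k, 0)) with hV
  have hm : ∀ k ∈ T, 0 ≤ v k / ps k := fun k hk =>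
    div_nonneg (hv k hk) (ps_pos (n := k) (by have := hT1 k hk; omega)).le
  have hZ : Zf T v F' = ∑ k ∈ V, v k / ps k := by
    rw [hV, sum_filter]
    unfold Zf
    refine sum_congr rfl fun k _ => ?_
    by_cases h : WX 0 F' (k, 0)
    · rw [if_pos h, ind_of h, mul_one]
    · rw [if_neg h, ind_not_of h, mul_zero]
  have hE : Ef s δ T v F' = ∑ k ∈ V, ∑ l ∈ V, v k / ps k * (v l / ps l) *
      (δ * (|((k : ℝ) - l)| + 1)) ^ (-s) := by
    rw [hV, sum_filter]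
    unfold Ef
    refine sum_congr rfl fun k _ => ?_
    by_cases h : WX 0 F' (k, 0)
    · rw [if_pos h, sum_filter]
      refine sum_congr rfl fun l _ => ?_
      by_cases h' : WX 0 F' (l, 0)
      · rw [if_pos h', ind_of ⟨h, h'⟩, mul_one]
      · rw [if_neg h', ind_not_of (fun hh => h' hh.2), mul_zero]
    · rw [if_neg h]
      exact sum_eq_zero fun l _ => by rw [ind_not_of (fun hh => h hh.1), mul_zero]
  have hD := R.dob (δ := δ) hδ hM
  have key := mdp s δ z A hs hδ hz hA V (fun k => v k / ps k) (fun k hk => hm k (mem_filter.1 hk).1)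
    (by rw [← hZ]; exact hF.1) (by rw [← hE]; exact hF.2.le) n x L (fun i => by
      have h1 := hL i
      linarith) (by
      intro k hk
      have hkT := (mem_filter.1 hk).1
      have hkW := (mem_filter.1 hk).2
      have hk1 := hT1 k hkT
      obtain ⟨w, hw, hkw⟩ := hT k hkT
      have hW : H934E.W (R.wired δ) F (k, 0) := by
        rcases reach_line (M := M) (by omega) (A := R.wired δ) (fun l h1 h2 => hD.line h1 h2)
          (F := F') (fun e he => ve_cols (Finset.mem_inter.mp he).2) hkW with h | ⟨h, -⟩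
        · refine h.mono (Set.union_subset_union_left _ ?_)
          intro e he
          exact Finset.mem_coe.mpr (Finset.mem_inter.mp (Finset.mem_coe.mp he)).1
        · exfalso
          simp only at h
          omega
      have hkx : k ≤ R.x1 δ := by
        unfold Rect.x1
        have a1 : R.B / δ ≤ (⌈R.B / δ⌉ : ℝ) := Int.le_ceil _
        have a2 : R.L0 / δ ≤ R.B / δ := div_le_div_of_nonneg_right R.L0_B hδ.le
        have a3 : (⌊R.L0 / δ⌋ : ℝ) ≤ R.L0 / δ := Int.floor_le _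
        have a4 : ((40 * k : ℤ) : ℝ) ≤ ((⌊R.L0 / δ⌋ - 3 : ℤ) : ℝ) := by
          exact_mod_cast hk1.2.trans hM
        have a5 : (1 : ℝ) ≤ k := by exact_mod_cast hk1.1
        push_cast at a4
        have : (k : ℝ) ≤ (⌈R.B / δ⌉ : ℝ) - 1 := by linarith
        exact_mod_cast this
      have hmem := R.mem_path (δ := δ) (F := F) (by omega) hkx hW
      have hnear : (⟨δ * k, δ / 2⟩ : ℂ) ∈ CNs S p := by
        refine Metric.mem_cthickening_of_dist_le _ (w : ℂ) _ _ (Set.mem_image_of_mem _ hw) ?_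
        refine le_trans ?_ hp
        rw [Complex.dist_eq]
        have e : (⟨δ * k, δ / 2⟩ : ℂ) - (w : ℂ) = ⟨δ * k - w, δ / 2⟩ := by
          apply Complex.ext <;> simp
        rw [e]
        refine (Complex.norm_le_abs_re_add_abs_im _).trans ?_
        simp only
        rw [abs_of_pos (show (0 : ℝ) < δ / 2 by positivity)]
        have b1 : (⌊w / δ⌋ : ℝ) ≤ w / δ := Int.floor_le _
        have b2 : w / δ < (⌊w / δ⌋ : ℝ) + 1 := Int.lt_floor_add_one _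
        have e7 : δ * (k : ℝ) - w = δ * ((k : ℝ) - w / δ) := by field_simp
        rw [e7, abs_mul, abs_of_pos hδ]
        have h1 : |(k : ℝ) - w / δ| ≤ 1 := by
          rw [hkw, abs_le]; constructor <;> linarith
        have h2 : δ * |(k : ℝ) - w / δ| ≤ δ * 1 := mul_le_mul_of_nonneg_left h1 hδ.le
        linarith
      rcases hcov hmem with h | h
      · obtain ⟨i, hi1, hi2⟩ := h
        exact ⟨i, hi1, hi2⟩
      · exact absurd hnear h)
  exact absurd hsum (not_lt.2 key)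

/-- finite mixed energies -/
theorem fin_energy {S : Set ℝ} {b s : ℝ} (hb : 0 < b) (hS : ∀ x ∈ S, x ≤ b) {ν : Measure ℝ}
    (hν0 : ν Sᶜ = 0) (h : ∫⁻ x, ∫⁻ y, (edist x y) ^ (-(1 / 3 + s) : ℝ) ∂ν ∂ν ≠ ∞) (hs : 0 < s) :
    ∫⁻ x, ∫⁻ y, kerR x y * (edist x y) ^ (-s) ∂ν ∂ν ≠ ∞ := by
  have hae : ∀ᵐ x ∂ν, x ∈ S := by
    rw [ae_iff]
    exact hν0
  have hpt : ∀ x ∈ S, ∀ y ∈ S, kerR x y * (edist x y) ^ (-s) ≤
      ENNReal.ofReal b ^ ((1 : ℝ) / 3) * (edist x y) ^ (-(1 / 3 + s) : ℝ) := by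
    intro x hx y hy
    have hb3 : ENNReal.ofReal b ^ ((1 : ℝ) / 3) ≠ 0 := by
      have : 0 < ENNReal.ofReal b ^ ((1 : ℝ) / 3) :=
        ENNReal.rpow_pos (ENNReal.ofReal_pos.2 hb) ENNReal.ofReal_ne_top
      exact this.ne'
    rcases eq_or_ne x y with hxy | hxy
    · rw [hxy, edist_self, ENNReal.zero_rpow_of_neg (y := -(1 / 3 + s)) (by linarith), ENNReal.mul_top hb3]
      exact le_top
    · have hd : 0 < |x - y| := abs_pos.2 (sub_ne_zero.2 hxy)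
      have hed : edist x y = ENNReal.ofReal |x - y| := by rw [edist_dist, Real.dist_eq]
      have hne : edist x y ≠ 0 := by
        rw [hed]
        exact (ENNReal.ofReal_pos.2 hd).ne'
      have hnt : edist x y ≠ ∞ := edist_ne_top _ _
      have e : -(1 / 3 + s) = -(1 / 3) + -s := by ring
      rw [e, ENNReal.rpow_add _ _ hne hnt, ← mul_assoc]
      refine mul_le_mul_left ?_ _
      unfold kerR
      rw [← hed, ENNReal.div_rpow_of_nonneg _ _ (by norm_num), ENNReal.rpow_neg, div_eq_mul_inv]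
      refine mul_le_mul_left ?_ _
      refine ENNReal.rpow_le_rpow (ENNReal.ofReal_le_ofReal (max_le (hS x hx) (hS y hy))) (by norm_num)
  have h1 : ∫⁻ x, ∫⁻ y, kerR x y * (edist x y) ^ (-s) ∂ν ∂ν ≤
      ENNReal.ofReal b ^ ((1 : ℝ) / 3) * ∫⁻ x, ∫⁻ y, (edist x y) ^ (-(1 / 3 + s) : ℝ) ∂ν ∂ν := by
    have hfin : ENNReal.ofReal b ^ ((1 : ℝ) / 3) ≠ ∞ :=
      ENNReal.rpow_ne_top_of_nonneg (by norm_num) ENNReal.ofReal_ne_top
    rw [← lintegral_const_mul' _ _ hfin]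
    refine lintegral_mono_ae ?_
    filter_upwards [hae] with x hx
    rw [← lintegral_const_mul' _ _ hfin]
    refine lintegral_mono_ae ?_
    filter_upwards [hae] with y hy
    exact hpt x hx y hy
  refine ne_top_of_le_ne_top ?_ h1
  exact ENNReal.mul_ne_top (ENNReal.rpow_ne_top_of_nonneg (by norm_num) ENNReal.ofReal_ne_top) h

theorem dl : S_DL := by
  classical
  obtain ⟨c, z, C, hc, hz, hC, h⟩ := prob
  refine ⟨c, hc, ?_⟩
  intro R δ hδ hlim μ hμ S a s hS ha hSa hs ν hν hν0 hen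
  by_cases he : energy ν = ∞
  · refine ⟨∅, MeasurableSet.empty, ?_, fun K hK => absurd hK (Set.notMem_empty K)⟩
    rw [he, ENNReal.inv_top, mul_zero]
    exact bot_le
  have hL := R.L0_pos
  set H : ℝ → ℝ → ℝ≥0∞ := fun x y => kerR x y * (edist x y) ^ (-s) with hH
  have hHfin : ∫⁻ x, ∫⁻ y, H x y ∂ν ∂ν ≠ ∞ :=
    fin_energy (b := R.L0 / 100) (by positivity) (fun x hx => (hSa hx).2) hν0 hen hs
  set E0 : ℝ := (energy ν).toReal with hE0
  set I0 : ℝ := (∫⁻ x, ∫⁻ y, H x y ∂ν ∂ν).toReal + 1 with hI0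
  have hI0p : 0 < I0 := by positivity
  -- the estimate for a small mesh
  have key : ∀ (d : ℝ) (p : ℕ), 0 < d → d ≤ a → 100 * d ≤ R.L0 → d + d ≤ 1 / ((p : ℝ) + 1) →
      1 ≤ E0 ∧ ∀ hd : 0 < d, c / E0 ≤ Q (R.edges d) (fun F => R.trace hd F ∈
        (ECS s (z ^ 2 / (4 * (C * I0 * E0) * 2 ^ s)) (1 / ((p : ℝ) + 1)) (CNs S p))ᶜ) := by
    intro d p hd hda hdL hdp
    set T : Finset ℤ := (Finset.Icc 0 ⌊R.L0 / d⌋).filter (fun k => ∃ x ∈ S, k = ⌊x / d⌋) with hTdef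
    have hT : ∀ k ∈ T, ∃ x ∈ S, k = ⌊x / d⌋ := fun k hk => (mem_filter.1 hk).2
    have hTm : ∀ x ∈ S, ⌊x / d⌋ ∈ T := by
      intro x hx
      have hx' := hSa hx
      refine mem_filter.2 ⟨?_, x, hx, rfl⟩
      rw [Finset.mem_Icc]
      refine ⟨Int.floor_nonneg.2 (div_nonneg (ha.le.trans hx'.1) hd.le), Int.floor_le_floor ?_⟩
      exact div_le_div_of_nonneg_right (by linarith [hx'.2]) hd.le
    obtain ⟨v, hv0, hv1, hv2⟩ := wts S d T ν hν0 hTm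
    have hfl : ∀ k ∈ T, (1 ≤ k ∧ 40 * k ≤ ⌊R.L0 / d⌋ - 3) := by
      intro k hk
      obtain ⟨x, hx, rfl⟩ := hT k hk
      have hx' := hSa hx
      have b1 : 1 ≤ x / d := by rw [le_div_iff₀ hd]; linarith [hx'.1]
      have b2 : x / d ≤ R.L0 / d / 100 := by
        rw [div_div, div_le_div_iff₀ hd (by positivity)]
        have := hx'.2
        nlinarith
      have b3 : (⌊x / d⌋ : ℝ) ≤ x / d := Int.floor_le _
      have b4 : 100 ≤ R.L0 / d := by rw [le_div_iff₀ hd]; linarith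
      have b5 : R.L0 / d < (⌊R.L0 / d⌋ : ℝ) + 1 := Int.lt_floor_add_one _
      refine ⟨Int.le_floor.mpr (by exact_mod_cast b1), ?_⟩
      have : ((40 * ⌊x / d⌋ : ℤ) : ℝ) ≤ ((⌊R.L0 / d⌋ - 3 : ℤ) : ℝ) := by push_cast; linarith
      exact_mod_cast this
    have hT1 : ∀ k ∈ T, 1 ≤ k := fun k hk => (hfl k hk).1
    have hkn : ∀ k ∈ T, ∀ l ∈ T, 0 ≤ kern k l := fun k hk l hl =>
      TH868.CT.kern_nonneg (hT1 k hk) (hT1 l hl)
    have hpt1 : ∀ x ∈ S, ∀ y ∈ S, ENNReal.ofReal (kern ⌊x / d⌋ ⌊y / d⌋) ≤ kerR x y := fun x hx y hy =>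
      kern_floor hd (hda.trans (hSa hx).1) (hda.trans (hSa hy).1)
    have hE : en T v ≤ E0 := hv2 kern kerR hkn hpt1 he
    have hIs : ∑ k ∈ T, ∑ l ∈ T, v k * v l * (kern k l * (d * (|((k : ℝ) - l)| + 1)) ^ (-s)) ≤ I0 := by
      have h1 := hv2 (fun k l => kern k l * (d * (|((k : ℝ) - l)| + 1)) ^ (-s)) H
        (fun k hk l hl => mul_nonneg (hkn k hk l hl) (by positivity))
        (fun x hx y hy => by
          rw [ENNReal.ofReal_mul (hkn _ (hTm x hx) _ (hTm y hy))]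
          exact mul_le_mul' (hpt1 x hx y hy) (wt_floor hd hs)) hHfin
      rw [hI0]
      linarith
    have h0 := TH868.CT.en_ge (S := T) hT1 (fun k _ => hv0 k)
    rw [hv1] at h0
    have hE1 : 1 ≤ E0 := by linarith
    refine ⟨hE1, fun hd' => ?_⟩
    have h2 := h s d T (⌊R.L0 / d⌋ - 3) hd hfl v (fun k _ => hv0 k) hv1 E0 I0 (by linarith) hI0p hE hIs
    refine h2.trans ?_
    set M : ℤ := ⌊R.L0 / d⌋ - 3 with hM
    have hM1 : 1 ≤ M ∨ T = ∅ := by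
      rcases T.eq_empty_or_nonempty with h0 | ⟨k, hk⟩
      · exact Or.inr h0
      · left
        have := hfl k hk
        omega
    have hD := R.dob (δ := d) hd (M := M) le_rfl
    have hsub : VE (-M) M 0 M ⊆ R.edges d := by
      have h := H934E.RE_sub (k := 0) (R := M) hD.flat
      rw [zero_sub, zero_add] at h
      exact H731C.VE_subset_RE.trans h
    have e1 : Q (VE (-M) M 0 M) (fun F => z ≤ Zf T v F ∧ Ef s d T v F < C * I0 * E0) =
        Q (R.edges d) (fun F => z ≤ Zf T v (F ∩ VE (-M) M 0 M) ∧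
          Ef s d T v (F ∩ VE (-M) M 0 M) < C * I0 * E0) :=
      (Pr_restrict hsub (fun F => z ≤ Zf T v F ∧ Ef s d T v F < C * I0 * E0)).symm
    rw [e1]
    apply Q_mono
    intro F _ hF
    exact trace_good R hd' hs.le hz (by positivity) (fun k _ => hv0 k) hT le_rfl hfl hdp hF
  -- small meshes
  have hsmall : ∀ p : ℕ, ∃ d0 : ℝ, 0 < d0 ∧ ∀ d, 0 < d → d ≤ d0 →
      d ≤ a ∧ 100 * d ≤ R.L0 ∧ d + d ≤ 1 / ((p : ℝ) + 1) := by
    intro p
    refine ⟨min a (min (R.L0 / 100) (1 / ((p : ℝ) + 1) / 2)),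
      lt_min ha (lt_min (by positivity) (by positivity)), fun d _ hd => ?_⟩
    have h1 := hd.trans (min_le_left _ _)
    have h2 := hd.trans ((min_le_right _ _).trans (min_le_left _ _))
    have h3 := hd.trans ((min_le_right _ _).trans (min_le_right _ _))
    exact ⟨h1, by linarith, by linarith⟩
  obtain ⟨d0, hd0, hd0'⟩ := hsmall 0
  obtain ⟨k1, k2, k3⟩ := hd0' d0 hd0 le_rfl
  have hE1 : 1 ≤ E0 := (key d0 0 hd0 k1 k2 k3).1
  have hE0p : 0 < E0 := by linarith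
  have e1 : ENNReal.ofReal c * (energy ν)⁻¹ = ENNReal.ofReal (c / E0) := by
    rw [ENNReal.ofReal_div_of_pos hE0p, hE0, ENNReal.ofReal_toReal he, ENNReal.div_eq_inv_mul, mul_comm]
  rw [e1]
  obtain ⟨G, hG1, hG2, hG3⟩ := asm (μ : Measure (NonemptyCompacts ℂ)) (s := s)
    (κ := z ^ 2 / (4 * (C * I0 * E0) * 2 ^ s)) hs (by positivity) hS (ENNReal.ofReal (c / E0)) (by
      intro p
      obtain ⟨dp, hdp, hdp'⟩ := hsmall p
      apply R.closed_ge hδ hμ (isOpen_ECS _ _ _ (CNs_closed S p)).isClosed_compl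
      filter_upwards [hlim.eventually_lt_const hdp] with i hi
      obtain ⟨j1, j2, j3⟩ := hdp' (δ i) (hδ i) hi.le
      exact (key (δ i) p (hδ i) j1 j2 j3).2 (hδ i))
  exact ⟨G, hG1, hG2, hG3⟩

end Pool.Agent.Helper46K9.BC
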